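import Mathlib

namespace Pool.Agent.Results.MP_626926_al.Embed

def LocMon (X : Type) : Type :=
  {S : Submonoid (Function.End X) //
    ∀ f : Function.End X, (∀ F : Finset X, ∃ s ∈ S, ∀ x ∈ F, s x = f x) → f ∈ S}

def LocGr (X : Type) : Type :=
  {S : Subgroup (Equiv.Perm X) //
    ∀ f : Equiv.Perm X, (∀ F : Finset X, ∃ s ∈ S, ∀ x ∈ F, s x = f x) → f ∈ S}

instance (X : Type) : PartialOrder (LocMon X) := Subtype.partialOrder _

instance (X : Type) : PartialOrder (LocGr X) := Subtype.partialOrder _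

def HasM (L : Type) [PartialOrder L] : Prop :=
  ∃ (B T : L) (A : ℝ → L), Function.Injective A ∧ (∀ r, B < A r ∧ A r < T) ∧
    ∀ r s, r ≠ s → IsGLB {A r, A s} B ∧ IsLUB {A r, A s} T

abbrev V := ℚ_[2] × ℚ_[2]

def U (n : ℕ) : AddSubgroup V where
  carrier := {v | ‖v‖ < 1 / ((n : ℝ) + 1)}
  zero_mem' := by simp; positivity
  add_mem' := fun {a b} (ha : ‖a‖ < _) (hb : ‖b‖ < _) => by
    rw [Prod.norm_def, max_lt_iff] at ha hb
    exact max_lt ((IsUltrametricDist.norm_add_le_max a.1 b.1).trans_lt (max_lt ha.1 hb.1))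
      ((IsUltrametricDist.norm_add_le_max a.2 b.2).trans_lt (max_lt ha.2 hb.2))
  neg_mem' := fun {a} (ha : ‖a‖ < _) => show ‖-a‖ < _ by rwa [norm_neg]

abbrev Y := Σ n : ℕ, V ⧸ U n

instance (n : ℕ) : Countable (V ⧸ U n) := by
  obtain ⟨s, hs, hd⟩ := TopologicalSpace.exists_countable_dense V
  have := hs.to_subtype
  refine Function.Surjective.countable (f := fun x : s => (QuotientAddGroup.mk x.1 : V ⧸ U n)) ?_
  intro q
  obtain ⟨v, rfl⟩ := QuotientAddGroup.mk_surjective q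
  obtain ⟨x, hx, h⟩ := hd.exists_dist_lt v (ε := 1 / ((n : ℝ) + 1)) (by positivity)
  refine ⟨⟨x, hx⟩, QuotientAddGroup.eq.2 ?_⟩
  show ‖-x + v‖ < _
  rwa [neg_add_eq_sub, ← dist_eq_norm]

instance : Infinite Y := Infinite.of_surjective Sigma.fst fun n => ⟨⟨n, 0⟩, rfl⟩

noncomputable def tr (v : V) : Equiv.Perm Y where
  toFun y := ⟨y.1, y.2 + QuotientAddGroup.mk v⟩
  invFun y := ⟨y.1, y.2 - QuotientAddGroup.mk v⟩
  left_inv y := by simp
  right_inv y := by simp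

lemma tr_apply (v : V) (n : ℕ) (q : V ⧸ U n) : tr v ⟨n, q⟩ = ⟨n, q + QuotientAddGroup.mk v⟩ := rfl

lemma tr_eq {v w : V} {n : ℕ} {q : V ⧸ U n} :
    tr v ⟨n, q⟩ = tr w ⟨n, q⟩ ↔ dist w v < 1 / ((n : ℝ) + 1) := by
  rw [tr_apply, tr_apply, Sigma.mk.inj_iff, heq_eq_eq, add_right_inj, QuotientAddGroup.eq,
    dist_eq_norm, ← neg_add_eq_sub]
  exact and_iff_right rfl

lemma tr_closed (H : AddSubgroup V) (hH : IsClosed (H : Set V)) (f : Y → Y)
    (h : ∀ F : Finset Y, ∃ v ∈ H, ∀ y ∈ F, tr v y = f y) : ∃ v ∈ H, ∀ y, tr v y = f y := by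
  classical
  choose u hu1 hu2 using fun n : ℕ => h ((Finset.range (n + 1)).image fun k => (⟨k, 0⟩ : Y))
  have hu : ∀ k n, k ≤ n → tr (u n) ⟨k, 0⟩ = f ⟨k, 0⟩ := fun k n hk =>
    hu2 n _ (Finset.mem_image_of_mem _ (Finset.mem_range.2 (by omega)))
  have hc : CauchySeq u := by
    refine Metric.cauchySeq_iff'.2 fun ε hε => ?_
    obtain ⟨k, hk⟩ := exists_nat_one_div_lt hε
    exact ⟨k, fun n hn => (tr_eq.1 ((hu k k le_rfl).trans (hu k n hn).symm)).trans hk⟩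
  obtain ⟨g, hg⟩ := cauchySeq_tendsto_of_complete hc
  refine ⟨g, hH.mem_of_tendsto hg (Filter.Eventually.of_forall hu1), ?_⟩
  rintro ⟨k, q⟩
  obtain ⟨v, -, hv⟩ := h {⟨k, q⟩, ⟨k, 0⟩}
  obtain ⟨N, hN⟩ := Metric.tendsto_atTop.1 hg (1 / ((k : ℝ) + 1)) (by positivity)
  have e1 : tr g ⟨k, 0⟩ = tr (u (max N k)) ⟨k, 0⟩ := tr_eq.2 (hN _ (le_max_left _ _))
  rw [← hv _ (by simp)]
  exact tr_eq.2 (tr_eq.1 (e1.trans ((hu k _ (le_max_right _ _)).trans (hv _ (by simp)).symm)))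

lemma exists_act (X : Type) [Countable X] [Infinite X] :
    ∃ ρ : Multiplicative V →* Equiv.Perm X, Function.Injective ρ ∧
      ∀ H : AddSubgroup V, IsClosed (H : Set V) → ∀ f : X → X,
        (∀ F : Finset X, ∃ v ∈ H, ∀ x ∈ F, ρ (Multiplicative.ofAdd v) x = f x) →
        ∃ v ∈ H, ∀ x, ρ (Multiplicative.ofAdd v) x = f x := by
  classical
  obtain ⟨e⟩ := nonempty_equiv_of_countable (α := Y) (β := X)
  refine ⟨MonoidHom.mk' (fun v => e.permCongr (tr v.toAdd)) fun v w => ?_, fun v w h => ?_,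
    fun H hH f h => ?_⟩
  · ext x
    obtain ⟨⟨n, q⟩, rfl⟩ := e.surjective x
    simp [tr_apply, add_assoc, add_comm (QuotientAddGroup.mk (s := U n) v.toAdd)]
  · have h1 : tr v.toAdd = tr w.toAdd := e.permCongr.injective h
    refine Multiplicative.toAdd.injective (eq_of_forall_dist_le fun ε hε => ?_)
    obtain ⟨k, hk⟩ := exists_nat_one_div_lt hε
    exact ((tr_eq (n := k) (q := 0)).1 (by rw [h1])).le.trans hk.le
  · obtain ⟨v, hv, h'⟩ := tr_closed H hH (fun y => e.symm (f (e y))) fun F => by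
      obtain ⟨v, hv, h'⟩ := h (F.image e)
      refine ⟨v, hv, fun y hy => ?_⟩
      rw [← h' _ (Finset.mem_image_of_mem _ hy)]; simp
    exact ⟨v, hv, fun x => by simp [h']⟩

def line (a : ℚ_[2]) : AddSubgroup V where
  carrier := {v | v.2 = a * v.1}
  zero_mem' := by simp
  add_mem' := fun {x y} (hx : x.2 = _) (hy : y.2 = _) => show x.2 + y.2 = a * (x.1 + y.1) by
    rw [hx, hy, mul_add]
  neg_mem' := fun {x} (hx : x.2 = _) => show -x.2 = a * -x.1 by rw [hx, mul_neg]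

lemma hasM (L : Type) [PartialOrder L] (M : Type) [Monoid M] (c : L → Submonoid M)
    (hc : ∀ a b, a ≤ b ↔ c a ≤ c b) (ρ : Multiplicative V →* M) (hρ : Function.Injective ρ)
    (Γ : ∀ H : AddSubgroup V, IsClosed (H : Set V) →
      ∃ a : L, ∀ m, m ∈ c a ↔ ∃ v ∈ H, ρ (Multiplicative.ofAdd v) = m) : HasM L := by
  obtain ⟨ι⟩ : Nonempty (ℝ ↪ ℚ_[2]) := by
    rw [← Cardinal.le_def, Cardinal.mk_real]
    exact continuum_le_cardinal_of_nontriviallyNormedField ℚ_[2]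
  obtain ⟨B, hB⟩ := Γ ⊥ (by simp)
  obtain ⟨T, hT⟩ := Γ ⊤ (by simp)
  choose A hA using fun r => Γ (line (ι r)) (isClosed_eq continuous_snd (by fun_prop))
  have mem : ∀ r v, ρ (Multiplicative.ofAdd v) ∈ c (A r) ↔ v.2 = ι r * v.1 := fun r v =>
    (hA r _).trans ⟨fun ⟨w, hw, e⟩ => Multiplicative.ofAdd.injective (hρ e) ▸ hw, fun h => ⟨v, h, rfl⟩⟩
  have hBA : ∀ r, B ≤ A r := fun r => (hc _ _).2 fun m hm => by
    obtain ⟨v, hv, rfl⟩ := (hB m).1 hm
    rw [AddSubgroup.mem_bot.1 hv]; exact (mem r _).2 (by simp)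
  have hAT : ∀ r, A r ≤ T := fun r => (hc _ _).2 fun m hm => by
    obtain ⟨v, -, rfl⟩ := (hA r m).1 hm
    exact (hT _).2 ⟨v, trivial, rfl⟩
  refine ⟨B, T, A, fun r s h => ι.injective ?_, fun r => ⟨lt_of_le_of_ne (hBA r) fun h => ?_,
    lt_of_le_of_ne (hAT r) fun h => ?_⟩, fun r s hrs => ⟨⟨?_, fun a ha => ?_⟩, ⟨?_, fun a ha => ?_⟩⟩⟩
  · simpa using (mem s (1, ι r)).1 (h ▸ (mem r _).2 (by simp))
  · obtain ⟨v, hv, e⟩ := (hB _).1 (h ▸ (mem r (1, ι r)).2 (by simp))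
    have := Multiplicative.ofAdd.injective (hρ e)
    rw [AddSubgroup.mem_bot.1 hv] at this
    simpa using congrArg Prod.fst this
  · simpa using (mem r (0, 1)).1 (h ▸ (hT _).2 ⟨_, trivial, rfl⟩)
  · rintro _ (rfl | rfl) <;> exact hBA _
  · refine (hc _ _).2 fun m hm => ?_
    obtain ⟨v, hv, rfl⟩ := (hA r m).1 ((hc _ _).1 (ha (Or.inl rfl)) hm)
    have h2 := (mem s v).1 ((hc _ _).1 (ha (Or.inr rfl)) hm)
    have h1 : v.2 = ι r * v.1 := hv
    have h3 : v.1 = 0 := by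
      by_contra h0
      exact hrs (ι.injective (mul_right_cancel₀ h0 (h1.symm.trans h2)))
    exact (hB _).2 ⟨v, Prod.ext h3 (by rw [h1, h3, mul_zero]; rfl), rfl⟩
  · rintro _ (rfl | rfl) <;> exact hAT _
  · refine (hc _ _).2 fun m hm => ?_
    obtain ⟨v, -, rfl⟩ := (hT m).1 hm
    have hne : ι r - ι s ≠ 0 := sub_ne_zero.2 fun h => hrs (ι.injective h)
    let t := (v.2 - ι s * v.1) / (ι r - ι s)
    have : v = (t, ι r * t) + (v.1 - t, ι s * (v.1 - t)) :=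
      Prod.ext (by simp) (by simp only [Prod.snd_add, t]; field_simp; ring)
    rw [this, ofAdd_add, map_mul]
    exact mul_mem ((hc _ _).1 (ha (Or.inl rfl)) ((mem r _).2 rfl))
      ((hc _ _).1 (ha (Or.inr rfl)) ((mem s _).2 rfl))

theorem result (X : Type) [Countable X] [Infinite X] : HasM (LocMon X) ∧ HasM (LocGr X) := by
  obtain ⟨ρ, h1, h2⟩ := exists_act X
  constructor
  · let π : Equiv.Perm X →* Function.End X := MulAction.toEndHom
    refine hasM _ (Function.End X) Subtype.val (fun _ _ => Iff.rfl) (π.comp ρ)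
      (fun v w h => h1 (Equiv.ext fun x => congrFun h x)) fun H hH => ?_
    refine ⟨⟨(AddSubgroup.toSubgroup H).toSubmonoid.map (π.comp ρ), fun f hf => ?_⟩, fun m => Iff.rfl⟩
    obtain ⟨v, hv, e⟩ := h2 H hH f fun F => by
      obtain ⟨_, ⟨v, hv, rfl⟩, h⟩ := hf F
      exact ⟨v, hv, h⟩
    exact ⟨v, hv, funext e⟩
  · refine hasM _ (Equiv.Perm X) (fun a => a.1.toSubmonoid) (fun _ _ => Iff.rfl) ρ h1 fun H hH => ?_
    refine ⟨⟨(AddSubgroup.toSubgroup H).map ρ, fun f hf => ?_⟩, fun m => Iff.rfl⟩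
    obtain ⟨v, hv, e⟩ := h2 H hH f fun F => by
      obtain ⟨_, ⟨v, hv, rfl⟩, h⟩ := hf F
      exact ⟨v, hv, h⟩
    exact ⟨v, hv, Equiv.ext e⟩

end Pool.Agent.Results.MP_626926_al.Embed
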